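import Pool.Agent.KLT.Fin

/-!
# Every oriented tree in every digraph of chromatic number C n log n
-/

set_option autoImplicit false

namespace Pool.Agent.Results.MP_35582f_co.AllTrees

/-- Every oriented tree with `n` vertices is contained in every finite digraph of chromatic number
at least `16 n (⌈log₂ n⌉ + 5)`. -/
theorem result :
    ∀ (n : ℕ) (T : Digraph (Fin n)),
      (∀ a b : Fin n, T.Adj a b → ¬ T.Adj b a) →
      (SimpleGraph.fromRel T.Adj).IsTree →
    ∀ (V : Type) [Fintype V] (D : Digraph V),
      ((16 * n * (Nat.clog 2 n + 5) : ℕ) : ℕ∞) ≤ (SimpleGraph.fromRel D.Adj).chromaticNumber →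
      ∃ f : Fin n → V, Function.Injective f ∧
        ∀ a b : Fin n, T.Adj a b → D.Adj (f a) (f b) :=
  fun n T h1 h2 => Pool.KLT.main n T ⟨h1, h2⟩

end Pool.Agent.Results.MP_35582f_co.AllTrees
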