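import Pool.Agent.Helper75.Havet.Main

/-!
# Havet's conjecture for caterpillars with a directed spine
-/

set_option autoImplicit false

namespace Pool.Agent.Results.MP_35582f_co.DirectedCaterpillars

open Finset Pool.Helper56.Havet Pool.Helper75.Havet
open scoped Classical

/-- `T` consists of a directed path `s 0 → s 1 → ... → s p` and further vertices hanging at it:
a vertex `w` off the path is an in-neighbour of some `s m` with `m ≤ j` (an in-leaf at `s m`) or an
out-neighbour of some `s m` with `j ≤ m` (an out-leaf at `s m`).  If `m < j` and `s m` has an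
in-leaf, then `s 0, ..., s (m - 1)` have together at least `m` in-leaves; if `j < m` and `s m` has
an out-leaf, then `s (m + 1), ..., s p` have together at least `p - m` out-leaves. -/
structure IsCaterpillar {k : ℕ} (T : Digraph (Fin (k + 1))) (p j : ℕ)
    (s : Fin (p + 1) → Fin (k + 1)) : Prop where
  le : j ≤ p
  inj : Function.Injective s
  path : ∀ i : Fin p, T.Adj (s i.castSucc) (s i.succ)
  hang : ∀ w, w ∉ Set.range s → (∃ m : Fin (p + 1), (m : ℕ) ≤ j ∧ T.Adj w (s m)) ∨
    (∃ m : Fin (p + 1), j ≤ (m : ℕ) ∧ T.Adj (s m) w)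
  front : ∀ m : Fin (p + 1), (m : ℕ) < j → (∃ w, w ∉ Set.range s ∧ T.Adj w (s m)) →
    (m : ℕ) ≤ {w | w ∉ Set.range s ∧ ∃ q : Fin (p + 1), q < m ∧ T.Adj w (s q)}.ncard
  back : ∀ m : Fin (p + 1), j < (m : ℕ) → (∃ w, w ∉ Set.range s ∧ T.Adj (s m) w) →
    p - (m : ℕ) ≤ {w | w ∉ Set.range s ∧ ∃ q : Fin (p + 1), m < q ∧ T.Adj (s q) w}.ncard

theorem cost_le {ι : Type} (Λ : Finset ι) (a : ι → ℕ) (j e : ℕ) (ha : ∀ w ∈ Λ, a w ≤ j)
    (he : (∀ w ∈ Λ, a w ≠ 0) → 1 ≤ j → 1 ≤ e) :
    cost Λ a j ≤ j + 2 * Λ.card + e ∧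
      (1 ≤ j ∨ 1 ≤ Λ.card → cost Λ a j + 1 ≤ j + 2 * Λ.card + e) := by
  have h1 : Λ.card = (Λ.filter (fun w => a w < j)).card + (Λ.filter (fun w => a w = j)).card := by
    rw [← card_union_of_disjoint]
    · congr 1
      ext w
      simp only [mem_union, mem_filter]
      constructor
      · intro h
        have := ha w h
        rcases Nat.lt_or_ge (a w) j with h2 | h2
        · exact Or.inl ⟨h, h2⟩
        · exact Or.inr ⟨h, by omega⟩
      · rintro (h | h) <;> exact h.1
    · rw [disjoint_left]
      intro w h2 h3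
      rw [mem_filter] at h2 h3
      omega
  unfold cost
  rcases Nat.eq_zero_or_pos j with hj | hj
  · rw [if_pos hj]
    refine ⟨by omega, fun h => by omega⟩
  · rw [if_neg (by omega)]
    rcases Nat.eq_zero_or_pos (Λ.filter (fun w => a w < j)).card with h2 | h2
    · have h3 : 1 ≤ e := by
        apply he _ hj
        intro w hw h0
        have : w ∈ Λ.filter (fun w => a w < j) := mem_filter.2 ⟨hw, by omega⟩
        rw [card_eq_zero] at h2
        rw [h2] at this
        simp at this
      refine ⟨by omega, fun h => by omega⟩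
    · refine ⟨by omega, fun h => by omega⟩

theorem result :
    ∀ (k ℓ : ℕ), 1 ≤ k →
    ∀ (T : Digraph (Fin (k + 1))),
      (∀ a b : Fin (k + 1), T.Adj a b → ¬ T.Adj b a) →
      (SimpleGraph.fromRel T.Adj).IsTree →
      {v : Fin (k + 1) | ((SimpleGraph.fromRel T.Adj).neighborSet v).ncard = 1}.ncard = ℓ →
    ∀ (p j : ℕ) (s : Fin (p + 1) → Fin (k + 1)), IsCaterpillar T p j s →
    ∀ (V : Type) [Fintype V] (D : Digraph V),
      (((k + ℓ : ℕ) : ℕ∞) ≤ (SimpleGraph.fromRel D.Adj).chromaticNumber ∨
        (((∃ w, w ∉ Set.range s ∧ T.Adj w (s 0)) ∨ ¬ ∃ w, w ∉ Set.range s ∧ T.Adj (s 0) w) ∧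
        ((∃ w, w ∉ Set.range s ∧ T.Adj (s (Fin.last p)) w) ∨
          ¬ ∃ w, w ∉ Set.range s ∧ T.Adj w (s (Fin.last p))) ∧
        ((k + ℓ - 1 : ℕ) : ℕ∞) ≤ (SimpleGraph.fromRel D.Adj).chromaticNumber)) →
      ∃ f : Fin (k + 1) → V, Function.Injective f ∧
        ∀ a b : Fin (k + 1), T.Adj a b → D.Adj (f a) (f b) := by
  intro k ℓ hk T hT htree hleaf p j s hcat V _ D hchi
  have hj := hcat.le
  have hs := hcat.inj
  -- attachment function
  obtain ⟨m, hm⟩ : ∃ m : Fin (k + 1) → Fin (p + 1), ∀ w, w ∉ Set.range s →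
      (((m w : ℕ) ≤ j ∧ T.Adj w (s (m w))) ∨ (j ≤ (m w : ℕ) ∧ T.Adj (s (m w)) w)) := by
    have h : ∀ w, ∃ i : Fin (p + 1), w ∉ Set.range s →
        (((i : ℕ) ≤ j ∧ T.Adj w (s i)) ∨ (j ≤ (i : ℕ) ∧ T.Adj (s i) w)) := by
      intro w
      by_cases hw : w ∈ Set.range s
      · exact ⟨0, fun h => absurd hw h⟩
      · rcases hcat.hang w hw with ⟨i, h1, h2⟩ | ⟨i, h1, h2⟩
        · exact ⟨i, fun _ => Or.inl ⟨h1, h2⟩⟩
        · exact ⟨i, fun _ => Or.inr ⟨h1, h2⟩⟩
    choose m hm using h
    exact ⟨m, hm⟩
  have harc := arcs_of_spine hT htree s hs hcat.path m (fun w hw => by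
    rcases hm w hw with h | h
    · exact Or.inl h.2
    · exact Or.inr h.2)
  have huni : ∀ w, w ∉ Set.range s → ∀ q, (T.Adj w (s q) ∨ T.Adj (s q) w) → q = m w := by
    intro w hw q hq
    rcases hq with hq | hq
    · rcases harc _ _ hq with ⟨i, h1, _⟩ | ⟨_, h⟩ | ⟨h, _⟩
      · exact absurd ⟨_, h1.symm⟩ hw
      · exact hs h
      · exact absurd ⟨_, rfl⟩ h
    · rcases harc _ _ hq with ⟨i, _, h1⟩ | ⟨h, _⟩ | ⟨_, h⟩
      · exact absurd ⟨_, h1.symm⟩ hw
      · exact absurd ⟨_, rfl⟩ h
      · exact hs h
  set Λ := univ.filter (fun w => w ∉ Set.range s ∧ T.Adj w (s (m w))) with hΛ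
  set Λ' := univ.filter (fun w => w ∉ Set.range s ∧ T.Adj (s (m w)) w) with hΛ'
  have hmΛ : ∀ w, w ∈ Λ ↔ (w ∉ Set.range s ∧ T.Adj w (s (m w))) := fun w => by simp [hΛ]
  have hmΛ' : ∀ w, w ∈ Λ' ↔ (w ∉ Set.range s ∧ T.Adj (s (m w)) w) := fun w => by simp [hΛ']
  have ha : ∀ w ∈ Λ, (m w : ℕ) ≤ j := by
    intro w hw
    obtain ⟨h1, h2⟩ := (hmΛ w).1 hw
    rcases hm w h1 with h | h
    · exact h.1
    · exact absurd h2 (hT _ _ h.2)
  have ha' : ∀ w ∈ Λ', j ≤ (m w : ℕ) := by
    intro w hw
    obtain ⟨h1, h2⟩ := (hmΛ' w).1 hw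
    rcases hm w h1 with h | h
    · exact absurd h2 (hT _ _ h.2)
    · exact h.1
  have hpk : p ≤ k := by
    have := Fintype.card_le_of_injective s hs
    simp only [Fintype.card_fin] at this
    omega
  -- count of the hanging vertices
  have hdis : Disjoint Λ Λ' := by
    rw [disjoint_left]
    intro w h1 h2
    exact hT _ _ ((hmΛ w).1 h1).2 ((hmΛ' w).1 h2).2
  have hunion : Λ ∪ Λ' = univ \ univ.image s := by
    ext w
    simp only [mem_union, hmΛ, hmΛ', mem_sdiff, mem_univ, true_and, mem_image, not_exists,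
      Set.mem_range]
    constructor
    · rintro (h | h) <;> exact h.1
    · intro h
      rcases hm w (by simpa using h) with h1 | h1
      · exact Or.inl ⟨h, h1.2⟩
      · exact Or.inr ⟨h, h1.2⟩
  have hcount : Λ.card + Λ'.card + p = k := by
    rw [← card_union_of_disjoint hdis, hunion, card_sdiff_of_subset (subset_univ _), card_univ,
      Fintype.card_fin, card_image_of_injective _ hs, card_univ, Fintype.card_fin]
    omega
  -- leaves
  obtain ⟨e0, he0⟩ : ∃ e0, e0 = if (∀ w, w ∉ Set.range s → (m w : ℕ) ≠ 0) ∧ 1 ≤ p then 1 else 0 :=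
    ⟨_, rfl⟩
  obtain ⟨e1, he1⟩ : ∃ e1, e1 = if (∀ w, w ∉ Set.range s → (m w : ℕ) ≠ p) ∧ 1 ≤ p then 1 else 0 :=
    ⟨_, rfl⟩
  have hadj : ∀ u v, (SimpleGraph.fromRel T.Adj).Adj u v ↔ (T.Adj u v ∨ T.Adj v u) := by
    intro u v
    rw [SimpleGraph.fromRel_adj]
    constructor
    · exact fun h => h.2
    · intro h
      refine ⟨?_, h⟩
      rintro rfl
      rcases h with h | h <;> exact hT _ _ h h
  have hℓ : Λ.card + Λ'.card + e0 + e1 ≤ ℓ := by
    have hLf : ∀ w, w ∉ Set.range s →
        ((SimpleGraph.fromRel T.Adj).neighborSet w).ncard = 1 := by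
      intro w hw
      rw [Set.ncard_eq_one]
      refine ⟨s (m w), ?_⟩
      ext z
      rw [SimpleGraph.mem_neighborSet, hadj, Set.mem_singleton_iff]
      constructor
      · rintro (h | h)
        · rcases harc _ _ h with ⟨i, h1, _⟩ | ⟨_, h1⟩ | ⟨_, h1⟩
          · exact absurd ⟨_, h1.symm⟩ hw
          · exact h1
          · exact absurd ⟨_, h1.symm⟩ hw
        · rcases harc _ _ h with ⟨i, _, h1⟩ | ⟨_, h1⟩ | ⟨_, h1⟩
          · exact absurd ⟨_, h1.symm⟩ hw
          · exact absurd ⟨_, h1.symm⟩ hw
          · exact h1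
      · rintro rfl
        rcases hm w hw with h | h
        · exact Or.inl h.2
        · exact Or.inr h.2
    have hL0 : (∀ w, w ∉ Set.range s → (m w : ℕ) ≠ 0) → 1 ≤ p →
        ((SimpleGraph.fromRel T.Adj).neighborSet (s 0)).ncard = 1 := by
      intro h0 hp
      obtain ⟨p', rfl⟩ : ∃ p', p = p' + 1 := ⟨p - 1, by omega⟩
      rw [Set.ncard_eq_one]
      refine ⟨s (Fin.succ 0), ?_⟩
      ext z
      rw [SimpleGraph.mem_neighborSet, hadj, Set.mem_singleton_iff]
      constructor
      · rintro (h | h)
        · rcases harc _ _ h with ⟨i, h1, h2⟩ | ⟨h1, _⟩ | ⟨h1, h2⟩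
          · have h3 := hs h1
            have h4 : i = 0 := by
              apply Fin.ext
              have := congrArg Fin.val h3
              simpa using this.symm
            rw [h2, h4]
          · exact absurd ⟨_, rfl⟩ h1
          · have h3 := hs h2
            exact absurd (by rw [← h3]; rfl) (h0 z h1)
        · rcases harc _ _ h with ⟨i, h1, h2⟩ | ⟨h1, h2⟩ | ⟨h1, h2⟩
          · have h3 := congrArg Fin.val (hs h2)
            simp at h3
          · have h3 := hs h2
            exact absurd (by rw [← h3]; rfl) (h0 z h1)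
          · exact absurd ⟨_, rfl⟩ h1
      · rintro rfl
        exact Or.inl (hcat.path 0)
    have hL1 : (∀ w, w ∉ Set.range s → (m w : ℕ) ≠ p) → 1 ≤ p →
        ((SimpleGraph.fromRel T.Adj).neighborSet (s (Fin.last p))).ncard = 1 := by
      intro h0 hp
      obtain ⟨p', rfl⟩ : ∃ p', p = p' + 1 := ⟨p - 1, by omega⟩
      rw [Set.ncard_eq_one]
      refine ⟨s (Fin.castSucc (Fin.last p')), ?_⟩
      ext z
      rw [SimpleGraph.mem_neighborSet, hadj, Set.mem_singleton_iff]
      constructor
      · rintro (h | h)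
        · rcases harc _ _ h with ⟨i, h1, h2⟩ | ⟨h1, _⟩ | ⟨h1, h2⟩
          · have h3 := congrArg Fin.val (hs h1)
            simp at h3
            have := i.2
            omega
          · exact absurd ⟨_, rfl⟩ h1
          · have h3 := hs h2
            exact absurd (by rw [← h3]; rfl) (h0 z h1)
        · rcases harc _ _ h with ⟨i, h1, h2⟩ | ⟨h1, h2⟩ | ⟨h1, h2⟩
          · have h3 := congrArg Fin.val (hs h2)
            simp at h3
            have h4 : i = Fin.last p' := by
              apply Fin.ext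
              simp
              omega
            rw [h1, h4]
          · have h3 := hs h2
            exact absurd (by rw [← h3]; rfl) (h0 z h1)
          · exact absurd ⟨_, rfl⟩ h1
      · rintro rfl
        refine Or.inr ?_
        have := hcat.path (Fin.last p')
        simpa using this
    rw [← hleaf]
    set LF := {v : Fin (k + 1) | ((SimpleGraph.fromRel T.Adj).neighborSet v).ncard = 1} with hLF
    have h1 : ((Λ ∪ Λ' ∪ (if e0 = 1 then {s 0} else ∅) ∪
        (if e1 = 1 then {s (Fin.last p)} else ∅) : Finset (Fin (k + 1))) : Set (Fin (k + 1))) ⊆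
        LF := by
      intro w hw
      simp only [coe_union, Set.mem_union, mem_coe] at hw
      rcases hw with ((h | h) | h) | h
      · exact hLf w ((hmΛ w).1 h).1
      · exact hLf w ((hmΛ' w).1 h).1
      · split_ifs at h with h2
        · rw [mem_singleton] at h
          rw [he0] at h2
          split_ifs at h2 with h3
          rw [h]
          exact hL0 h3.1 h3.2
        · simp at h
      · split_ifs at h with h2
        · rw [mem_singleton] at h
          rw [he1] at h2
          split_ifs at h2 with h3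
          rw [h]
          exact hL1 h3.1 h3.2
        · simp at h
    have h2 := Set.ncard_le_ncard h1 (Set.toFinite _)
    rw [Set.ncard_coe_finset] at h2
    refine le_trans (le_of_eq ?_) h2
    have h3 : (if e0 = 1 then ({s 0} : Finset (Fin (k + 1))) else ∅).card = e0 := by
      have h5 : e0 = 0 ∨ e0 = 1 := by
        rw [he0]
        split_ifs
        · exact Or.inr rfl
        · exact Or.inl rfl
      clear he0
      rcases h5 with h5 | h5 <;> rw [h5]
      · rw [if_neg (by omega), card_empty]
      · rw [if_pos rfl, card_singleton]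
    have h4 : (if e1 = 1 then ({s (Fin.last p)} : Finset (Fin (k + 1))) else ∅).card = e1 := by
      have h5 : e1 = 0 ∨ e1 = 1 := by
        rw [he1]
        split_ifs
        · exact Or.inr rfl
        · exact Or.inl rfl
      clear he1
      rcases h5 with h5 | h5 <;> rw [h5]
      · rw [if_neg (by omega), card_empty]
      · rw [if_pos rfl, card_singleton]
    rw [card_union_of_disjoint, card_union_of_disjoint, card_union_of_disjoint hdis, h3, h4]
    · rw [disjoint_left]
      intro w h5 h6
      split_ifs at h6 with h7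
      · rw [mem_singleton] at h6
        subst h6
        rcases mem_union.1 h5 with h5 | h5
        · exact ((hmΛ _).1 h5).1 ⟨_, rfl⟩
        · exact ((hmΛ' _).1 h5).1 ⟨_, rfl⟩
      · simp at h6
    · rw [disjoint_left]
      intro w h5 h6
      split_ifs at h6 with h7
      · rw [mem_singleton] at h6
        subst h6
        rcases mem_union.1 h5 with h5 | h5
        · rcases mem_union.1 h5 with h5 | h5
          · exact ((hmΛ _).1 h5).1 ⟨_, rfl⟩
          · exact ((hmΛ' _).1 h5).1 ⟨_, rfl⟩
        · split_ifs at h5 with h8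
          · rw [mem_singleton] at h5
            have h9 := congrArg Fin.val (hs h5)
            rw [he1] at h7
            split_ifs at h7 with h10
            simp at h9
            omega
          · simp at h5
      · simp at h6
  -- cost
  have c1 := cost_le Λ (fun w => (m w : ℕ)) j e0 ha (by
    intro h0 hj1
    rw [he0, if_pos]
    refine ⟨?_, by omega⟩
    intro w hw h1
    rcases hm w hw with h | h
    · exact h0 w ((hmΛ w).2 ⟨hw, h.2⟩) h1
    · omega)
  have c2 := cost_le Λ' (fun w => p - (m w : ℕ)) (p - j) e1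
    (fun w hw => by have := ha' w hw; omega) (by
    intro h0 hj1
    rw [he1, if_pos]
    refine ⟨?_, by omega⟩
    intro w hw h1
    rcases hm w hw with h | h
    · omega
    · exact h0 w ((hmΛ' w).2 ⟨hw, h.2⟩) (by omega))
  have hΛ0 : Λ.card = 0 → j = 0 → Λ'.card = 0 → p = j → False := by
    intro h1 h2 h3 h4
    omega
  have hcost : ∃ n, cost Λ (fun w => (m w : ℕ)) j + cost Λ' (fun w => p - (m w : ℕ)) (p - j) ≤ n ∧
      ((n + 1 : ℕ) : ℕ∞) ≤ (SimpleGraph.fromRel D.Adj).chromaticNumber := by
    rcases hchi with hchi | ⟨H1, H2, hchi⟩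
    · refine ⟨k + ℓ - 1, ?_, ?_⟩
      · by_cases h1 : 1 ≤ j ∨ 1 ≤ Λ.card
        · have := c1.2 h1
          have := c2.1
          omega
        · by_cases h2 : 1 ≤ p - j ∨ 1 ≤ Λ'.card
          · have := c2.2 h2
            have := c1.1
            omega
          · exfalso
            omega
      · have : k + ℓ - 1 + 1 = k + ℓ := by omega
        rw [this]; exact hchi
    · -- the sharper bound
      have k1 : cost Λ (fun w => (m w : ℕ)) j + 1 ≤ j + 2 * Λ.card + e0 ∨
          (p = 0 ∧ Λ.card = 0 ∧ Λ'.card = 0) := by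
        by_cases h1 : 1 ≤ j ∨ 1 ≤ Λ.card
        · exact Or.inl (c1.2 h1)
        · have hΛe : Λ.card = 0 := by omega
          have hj0 : j = 0 := by omega
          have hno : ∀ w, w ∉ Λ := by
            rw [card_eq_zero] at hΛe
            intro w; rw [hΛe]; simp
          have h3 : ∀ w, w ∉ Set.range s → (m w : ℕ) ≠ 0 := by
            intro w hw h0
            have hmw : m w = 0 := Fin.ext (by simpa using h0)
            rcases hm w hw with h | h
            · exact hno w ((hmΛ w).2 ⟨hw, h.2⟩)
            · rcases H1 with ⟨w', h4, h5⟩ | H1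
              · have h6 := huni w' h4 0 (Or.inl h5)
                exact hno w' ((hmΛ w').2 ⟨h4, h6 ▸ h5⟩)
              · exact H1 ⟨w, hw, hmw ▸ h.2⟩
          rcases Nat.eq_zero_or_pos p with hp | hp
          · right
            refine ⟨hp, hΛe, ?_⟩
            rw [card_eq_zero, eq_empty_iff_forall_notMem]
            intro w hw
            apply h3 w ((hmΛ' w).1 hw).1
            have := (m w).2
            omega
          · left
            have : e0 = 1 := by rw [he0, if_pos ⟨h3, hp⟩]
            have h5 : cost Λ (fun w => (m w : ℕ)) j = 0 := by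
              unfold cost
              rw [if_pos hj0]
              omega
            omega
      have k2 : cost Λ' (fun w => p - (m w : ℕ)) (p - j) + 1 ≤ (p - j) + 2 * Λ'.card + e1 ∨
          (p = 0 ∧ Λ.card = 0 ∧ Λ'.card = 0) := by
        by_cases h1 : 1 ≤ p - j ∨ 1 ≤ Λ'.card
        · exact Or.inl (c2.2 h1)
        · have hΛe : Λ'.card = 0 := by omega
          have hj0 : j = p := by omega
          have hno : ∀ w, w ∉ Λ' := by
            rw [card_eq_zero] at hΛe
            intro w; rw [hΛe]; simp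
          have h3 : ∀ w, w ∉ Set.range s → (m w : ℕ) ≠ p := by
            intro w hw h0
            have hmw : m w = Fin.last p := Fin.ext (by simpa using h0)
            rcases hm w hw with h | h
            · rcases H2 with ⟨w', h4, h5⟩ | H2
              · have h6 := huni w' h4 _ (Or.inr h5)
                exact hno w' ((hmΛ' w').2 ⟨h4, h6 ▸ h5⟩)
              · exact H2 ⟨w, hw, hmw ▸ h.2⟩
            · exact hno w ((hmΛ' w).2 ⟨hw, h.2⟩)
          rcases Nat.eq_zero_or_pos p with hp | hp
          · right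
            refine ⟨hp, ?_, hΛe⟩
            rw [card_eq_zero, eq_empty_iff_forall_notMem]
            intro w hw
            apply h3 w ((hmΛ w).1 hw).1
            have := (m w).2
            omega
          · left
            have : e1 = 1 := by rw [he1, if_pos ⟨h3, hp⟩]
            have h5 : cost Λ' (fun w => p - (m w : ℕ)) (p - j) = 0 := by
              unfold cost
              rw [if_pos (by omega)]
              omega
            omega
      refine ⟨k + ℓ - 2, ?_, ?_⟩
      · omega
      · have : k + ℓ - 2 + 1 = k + ℓ - 1 := by omega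
        rw [this]; exact hchi
  obtain ⟨n, hn1, hn2⟩ := hcost
  obtain ⟨O, hOD, hO, hcol⟩ := orient D.Adj n hn2
  obtain ⟨g, hg1, hg2⟩ := embed hO (T := T.Adj) hT s hs hj m harc hm (by
      intro w hw hw2 hwj
      have h1 := hcat.front (m w) hwj ⟨w, hw, hw2⟩
      refine h1.trans ?_
      rw [← Set.ncard_coe_finset]
      refine Set.ncard_le_ncard ?_ (Set.toFinite _)
      rintro w' ⟨h2, q, h3, h4⟩
      have h5 := huni w' h2 q (Or.inl h4)
      simp only [coe_filter, mem_univ, true_and]
      subst h5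
      exact ⟨h2, h4, h3⟩) (by
      intro w hw hw2 hwj
      have h1 := hcat.back (m w) hwj ⟨w, hw, hw2⟩
      refine h1.trans ?_
      rw [← Set.ncard_coe_finset]
      refine Set.ncard_le_ncard ?_ (Set.toFinite _)
      rintro w' ⟨h2, q, h3, h4⟩
      have h5 := huni w' h2 q (Or.inr h4)
      simp only [coe_filter, mem_univ, true_and]
      subst h5
      exact ⟨h2, h4, h3⟩) (fun h => hcol (h.mono (Subset.refl _) hn1))
  exact ⟨g, hg1, fun a b hab => hOD _ _ (hg2 a b hab)⟩

end Pool.Agent.Results.MP_35582f_co.DirectedCaterpillars
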