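import Pool.Agent.Helper49.FracBurr.Interp

/-!
# Oriented trees in digraphs of large fractional chromatic number
-/

set_option autoImplicit false

namespace Pool.Agent.Results.MP_35582f_co.FracTrees

open scoped Classical

/-- The fractional chromatic number of a finite graph: the infimum of the total weight of the
nonnegative weightings of its independent sets for which the independent sets containing any
given vertex have total weight at least `1`. -/
noncomputable def fracChromaticNumber {V : Type} [Fintype V] (G : SimpleGraph V) : ℝ :=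
  sInf {q : ℝ | ∃ w : Finset V → ℝ, (∀ S, 0 ≤ w S) ∧
    (∀ S, w S ≠ 0 → G.IsIndepSet (S : Set V)) ∧
    (∀ v : V, 1 ≤ ∑ S : Finset V, if v ∈ S then w S else 0) ∧ q = ∑ S, w S}

/-- Let `T` be an oriented tree with `k` edges and let `S` be the vertex set of a subtree with
`g` edges such that every vertex of `T` can be reached from `S` by a directed path (or every vertex
of `T` can reach `S`). Put `h = min (g, k / 2)`. Every digraph of fractional chromatic number at
least `2 (√h + √(k - h)) ^ 2` contains `T`. -/
theorem result :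
    ∀ k : ℕ, 1 ≤ k →
    ∀ T : Digraph (Fin (k + 1)),
      (∀ a b : Fin (k + 1), T.Adj a b → ¬ T.Adj b a) →
      (SimpleGraph.fromRel T.Adj).IsTree →
    ∀ (g : ℕ) (S : Finset (Fin (k + 1))), S.card = g + 1 →
      ((SimpleGraph.fromRel T.Adj).induce (S : Set (Fin (k + 1)))).Connected →
      ((∀ v, ∃ s ∈ S, Relation.ReflTransGen T.Adj s v) ∨
        (∀ v, ∃ s ∈ S, Relation.ReflTransGen T.Adj v s)) →
    ∀ (V : Type) [Fintype V] (D : Digraph V),
      2 * (Real.sqrt (min (g : ℝ) (k / 2)) + Real.sqrt (k - min (g : ℝ) (k / 2))) ^ 2 ≤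
        fracChromaticNumber (SimpleGraph.fromRel D.Adj) →
      ∃ f : Fin (k + 1) → V, Function.Injective f ∧
        ∀ a b : Fin (k + 1), T.Adj a b → D.Adj (f a) (f b) := by
  intro k hk T hasym htree g S hSc hScon hreach V _ D hD
  have hbdd : BddBelow {q : ℝ | ∃ w : Finset V → ℝ, (∀ S, 0 ≤ w S) ∧
      (∀ S, w S ≠ 0 → (SimpleGraph.fromRel D.Adj).IsIndepSet (S : Set V)) ∧
      (∀ v : V, 1 ≤ ∑ S : Finset V, if v ∈ S then w S else 0) ∧ q = ∑ S, w S} := by
    refine ⟨0, ?_⟩
    rintro q ⟨w, h0, -, -, rfl⟩
    exact Finset.sum_nonneg fun S _ => h0 S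
  have hk' : (1 : ℝ) ≤ k := by exact_mod_cast hk
  have hpos : 0 < 2 * (Real.sqrt (min (g : ℝ) (k / 2)) +
      Real.sqrt (k - min (g : ℝ) (k / 2))) ^ 2 := by
    have h1 : 0 < Real.sqrt (k - min (g : ℝ) (k / 2)) := by
      apply Real.sqrt_pos.2
      have := min_le_right (g : ℝ) (k / 2)
      linarith
    have h2 := Real.sqrt_nonneg (min (g : ℝ) (k / 2))
    positivity
  have hV : Nonempty V := by
    by_contra hne
    rw [not_nonempty_iff] at hne
    have h1 : fracChromaticNumber (SimpleGraph.fromRel D.Adj) ≤ 0 := by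
      apply csInf_le hbdd
      exact ⟨fun _ => 0, fun _ => le_refl _, fun S h => absurd rfl h,
        fun v => (hne.false v).elim, by simp⟩
    linarith
  rcases Pool.Helper49.FracBurr.main_core' T hasym htree S hSc hScon hreach D.Adj hV with
    h | ⟨l, h0, hs, h1, h2⟩
  · exact h
  · exfalso
    have h3 : fracChromaticNumber (SimpleGraph.fromRel D.Adj) ≤ ∑ S, l S := by
      apply csInf_le hbdd
      refine ⟨l, h0, ?_, fun v => le_of_eq (h1 v).symm, rfl⟩
      intro S hS v hv w hw hvw hadj
      rw [SimpleGraph.fromRel_adj] at hadj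
      rcases hadj.2 with h | h
      · exact hs S hS v hv w hw hvw h
      · exact hs S hS w hw v hv hvw.symm h
    unfold Pool.Helper49.FracBurr.treeBound at h2
    linarith

end Pool.Agent.Results.MP_35582f_co.FracTrees
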